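import Pool.Agent.L5helper61.DC.Ker

/-!
Critical points of the elementary symmetric polynomial `e_{N+1}` in `2 N` variables: at a point
whose two halves are orderings of the `N`-th roots of unity the gradient is a fixed vector and the
Hessian is nondegenerate.
-/

set_option autoImplicit false

namespace L5helper11.DP

open Finset MvPolynomial L5helper59.DC L5helper61.DC

/-- `es` of the variables -/
theorem esymm_eq_es (σ R : Type*) [Fintype σ] [DecidableEq σ] [CommRing R] (r : ℕ) :
    esymm σ R r = es (fun i => (X i : MvPolynomial σ R)) univ r := rfl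

theorem map_es {ι R R' : Type*} [DecidableEq ι] [CommRing R] [CommRing R'] (φ : R →+* R')
    (f : ι → R) (T : Finset ι) (b : ℕ) : φ (es f T b) = es (fun i => φ (f i)) T b := by
  unfold es
  rw [map_sum]
  exact sum_congr rfl fun S _ => map_prod φ f S

theorem pderiv_prod_X_of_notMem {σ R : Type*} [DecidableEq σ] [CommRing R] (S : Finset σ) {v : σ}
    (hv : v ∉ S) : pderiv v (∏ i ∈ S, (X i : MvPolynomial σ R)) = 0 := by
  induction S using Finset.induction_on with
  | empty => simp
  | insert a s ha ih =>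
    rw [prod_insert ha, Derivation.leibniz, ih (fun h => hv (mem_insert_of_mem h)),
      pderiv_X_of_ne (show a ≠ v from fun h => hv (by rw [← h]; exact mem_insert_self a s)),
      smul_zero, smul_zero, add_zero]

theorem pderiv_es_of_notMem {σ R : Type*} [DecidableEq σ] [CommRing R] (T : Finset σ) {v : σ}
    (hv : v ∉ T) (b : ℕ) : pderiv v (es (fun i => (X i : MvPolynomial σ R)) T b) = 0 := by
  unfold es
  rw [map_sum]
  refine sum_eq_zero fun S hS => ?_
  exact pderiv_prod_X_of_notMem S fun h => hv ((mem_powersetCard.1 hS).1 h)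

theorem pderiv_es {σ R : Type*} [DecidableEq σ] [CommRing R] (T : Finset σ) {v : σ}
    (hv : v ∈ T) (b : ℕ) : pderiv v (es (fun i => (X i : MvPolynomial σ R)) T (b + 1)) =
      es (fun i => (X i : MvPolynomial σ R)) (T.erase v) b := by
  rw [es_succ _ hv, map_add, Derivation.leibniz, pderiv_es_of_notMem _ (notMem_erase v T),
    pderiv_es_of_notMem _ (notMem_erase v T), pderiv_X_self, smul_zero, zero_add, zero_add,
    smul_eq_mul, mul_one]

theorem eval_es {σ : Type*} [DecidableEq σ] (p : σ → ℂ) (T : Finset σ) (b : ℕ) :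
    eval p (es (fun i => (X i : MvPolynomial σ ℂ)) T b) = es p T b := by
  rw [map_es]
  simp only [eval_X]

theorem eval_pderiv_esymm {σ : Type*} [Fintype σ] [DecidableEq σ] (p : σ → ℂ) (b : ℕ) (v : σ) :
    eval p (pderiv v (esymm σ ℂ (b + 1))) = es p (univ.erase v) b := by
  rw [esymm_eq_es, pderiv_es _ (mem_univ v), eval_es]

theorem eval_pderiv2_esymm {σ : Type*} [Fintype σ] [DecidableEq σ] (p : σ → ℂ) (b : ℕ)
    (v v' : σ) : eval p (pderiv v' (pderiv v (esymm σ ℂ (b + 2)))) =
      if v' = v then 0 else es p ((univ.erase v).erase v') b := by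
  rw [esymm_eq_es, pderiv_es _ (mem_univ v)]
  split_ifs with h
  · subst h
    rw [pderiv_es_of_notMem _ (notMem_erase v' univ), map_zero]
  · rw [pderiv_es _ (mem_erase.2 ⟨h, mem_univ v'⟩), eval_es]

/-- The critical points. -/
theorem esymm_points (N : ℕ) [NeZero N] (hN : 1 ≤ N) :
    ∃ (c : Fin 2 × ZMod N → ℂ) (S : Finset (Fin 2 × ZMod N → ℂ)),
      S.card = (N.factorial) ^ 2 ∧
      (∀ p ∈ S, ∀ v, eval p (pderiv v (esymm (Fin 2 × ZMod N) ℂ (N + 1))) = c v) ∧
      (∀ p ∈ S, ∀ z : Fin 2 × ZMod N → ℂ,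
        (∀ v, ∑ v', z v' * eval p (pderiv v' (pderiv v (esymm (Fin 2 × ZMod N) ℂ (N + 1)))) = 0)
          → z = 0) := by
  classical
  refine ⟨fun _ => es (vec (1 : Typ N)) univ N + (-1) ^ N,
    (univ : Finset (Typ N)).map ⟨vec, vec_inj⟩, ?_, ?_, ?_⟩
  · rw [card_map, card_univ, Fintype.card_fun, Fintype.card_perm, ZMod.card, Fintype.card_fin]
  · intro p hp v
    obtain ⟨t, _, rfl⟩ := mem_map.1 hp
    change eval (vec t) _ = _
    rw [eval_pderiv_esymm, es_erase_q (es_vec t) hN, es_vec_eq, neg_pow, vec_pow, mul_one]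
  · intro p hp z hz
    obtain ⟨t, _, rfl⟩ := mem_map.1 hp
    refine ker_inj hN t z fun j => ?_
    have h1 := hz j
    obtain ⟨b, rfl⟩ := Nat.exists_eq_succ_of_ne_zero (show N ≠ 0 by omega)
    have h2 : ∀ l, ker t t j l = (((b.succ : ℕ) : ℂ) * (-1) ^ b * (b.factorial : ℂ)) *
        eval (vec t) (pderiv l (pderiv j (esymm (Fin 2 × ZMod b.succ) ℂ (b.succ + 1)))) := by
      intro l
      rw [ker_diag hN, eval_pderiv2_esymm]
      simp only [Nat.succ_eq_add_one, Nat.add_sub_cancel]
      by_cases hlj : l = j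
      · rw [if_pos hlj, if_pos hlj, mul_zero, mul_zero]
      · rw [if_neg hlj, if_neg hlj]
        have h5 := es_erase_erase (es_vec t) (show b < b + 1 by omega) (i := j) (k := l) hlj
        rw [h5]
        ring
    have h3 : ∑ l, z l * ker t t j l = (((b.succ : ℕ) : ℂ) * (-1) ^ b * (b.factorial : ℂ)) *
        ∑ l, z l * eval (vec t) (pderiv l (pderiv j
          (esymm (Fin 2 × ZMod b.succ) ℂ (b.succ + 1)))) := by
      rw [mul_sum]
      refine sum_congr rfl fun l _ => ?_
      rw [h2 l]
      ring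
    rw [h3]
    change _ * ∑ l, z l * eval (vec t) _ = 0
    have h4 : ∑ l, z l * eval (vec t) (pderiv l (pderiv j
          (esymm (Fin 2 × ZMod b.succ) ℂ (b.succ + 1)))) = 0 := h1
    rw [h4, mul_zero]

end L5helper11.DP
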